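import Pool.Agent.Lib.MP_79af62_gt.Geo

set_option autoImplicit false

namespace Pool.Agent.Lib.MP_79af62_gt.Old.PowerBound

open Pool.Agent.Lib.MP_79af62_gt Matrix

/-- For every positive `ε` there is `c > 0` such that, in every dimension `d`, planks covering a
convex body have total relative width at least `c * d ^ (-ε)`. -/
theorem result : ∀ ε : ℝ, 0 < ε → ∃ c : ℝ, 0 < c ∧
    ∀ (d n : ℕ) (C : Set (EuclideanSpace ℝ (Fin d))),
      IsCompact C → Convex ℝ C → (interior C).Nonempty →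
      ∀ (u : Fin n → EuclideanSpace ℝ (Fin d)) (a b : Fin n → ℝ),
        (∀ i, u i ≠ 0) → (∀ i, a i < b i) →
        C ⊆ ⋃ i, {x | a i ≤ inner ℝ (u i) x ∧ inner ℝ (u i) x ≤ b i} →
        c * (d : ℝ) ^ (-ε) ≤ ∑ i, (b i - a i) /
          (sSup ((fun x => inner ℝ (u i) x) '' C) - sInf ((fun x => inner ℝ (u i) x) '' C)) := by
  intro ε hε
  obtain ⟨mm, hmm⟩ := exists_nat_gt (4 / ε)
  have hm0 : 0 < mm := by
    have : (0 : ℝ) < mm := lt_trans (by positivity) hmm
    exact_mod_cast this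
  have hεm : 4 ≤ ε * mm := by rw [div_lt_iff₀ hε] at hmm; linarith
  obtain ⟨Cs, hCs, hst⟩ := stage_prop mm
  obtain ⟨A, hA, hgr⟩ := growth Cs hCs mm
  refine ⟨1 / (16 * A), by positivity, ?_⟩
  intro d n C hcpt hcvx hint u a b hu hab hcov
  obtain ⟨x0, hx0⟩ := hint
  obtain ⟨r, hr, hball⟩ := Metric.mem_nhds_iff.1 (mem_interior_iff_mem_nhds.1 hx0)
  have hx0C : x0 ∈ C := interior_subset hx0
  obtain ⟨i0, -⟩ := Set.mem_iUnion.1 (hcov hx0C)
  have hd : 0 < d := by
    rcases Nat.eq_zero_or_pos d with h | h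
    · subst h
      exact absurd (Subsingleton.elim _ _) (hu i0)
    · exact h
  have hinner : ∀ (v : EuclideanSpace ℝ (Fin d)) (y : Fin d → ℝ),
      inner ℝ v (WithLp.toLp 2 y) = v.ofLp ⬝ᵥ y := by
    intro v y
    simp [EuclideanSpace.inner_eq_star_dotProduct, dotProduct_comm]
  have hcont : ∀ i, ContinuousOn (fun x => inner ℝ (u i) x) C := fun i => by fun_prop
  choose P hPC hP using fun i => hcpt.exists_sInf_image_eq ⟨x0, hx0C⟩ (hcont i)
  choose Q hQC hQ using fun i => hcpt.exists_sSup_image_eq ⟨x0, hx0C⟩ (hcont i)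
  set W : Fin n → ℝ := fun i =>
    sSup ((fun x => inner ℝ (u i) x) '' C) - sInf ((fun x => inner ℝ (u i) x) '' C) with hW
  have hW0 : ∀ i, 0 < W i := by
    intro i
    have hn : 0 < ‖u i‖ := norm_pos_iff.2 (hu i)
    have hb := hcpt.image_of_continuousOn (hcont i)
    have h1 : x0 + (r / 2 / ‖u i‖) • u i ∈ C := by
      apply hball
      rw [Metric.mem_ball, dist_eq_norm, add_sub_cancel_left, norm_smul, Real.norm_eq_abs,
        abs_of_pos (by positivity), div_mul_cancel₀ _ hn.ne']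
      linarith
    have h2 := le_csSup hb.bddAbove (Set.mem_image_of_mem _ h1)
    have h3 := csInf_le hb.bddBelow (Set.mem_image_of_mem _ hx0C)
    rw [inner_add_right, inner_smul_right, real_inner_self_eq_norm_sq] at h2
    have h4 : 0 < r / 2 / ‖u i‖ * ‖u i‖ ^ 2 := by positivity
    simp only [hW]
    linarith
  obtain ⟨q, hq1, hq2⟩ := exists_q ε mm hm0 hεm d hd
  have hball' : ∀ (k : Fin d) (s : ℝ), |s| < r →
      WithLp.toLp 2 (x0.ofLp + s • Pi.single k 1) ∈ C := by
    intro k s hs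
    apply hball
    have : WithLp.toLp 2 (x0.ofLp + s • Pi.single k 1) = x0 + s • PiLp.single 2 k (1 : ℝ) := rfl
    rw [this, Metric.mem_ball, dist_eq_norm, add_sub_cancel_left, norm_smul, PiLp.norm_single,
      Real.norm_eq_abs, norm_one, mul_one]
    exact hs
  have key := cover_bound (ι := Fin d) (I := Fin n) mm q hCs hst (by simpa using hd)
    (by simpa using hq1) (K := {y | WithLp.toLp 2 y ∈ C})
    (by
      intro x hx y hy s t hs ht hst'
      exact hcvx hx hy hs ht hst')
    x0.ofLp (r / 2) (by positivity)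
    (fun k => by
      have := hball' k (-(r / 2)) (by rw [abs_neg, abs_of_pos (by positivity)]; linarith)
      rwa [neg_smul, ← sub_eq_add_neg] at this)
    (fun k => hball' k (r / 2) (by rw [abs_of_pos (by positivity)]; linarith))
    (fun i => (2 / W i) • (u i).ofLp) (fun i => (P i).ofLp) (fun i => (Q i).ofLp)
    (fun i => (b i - a i) / W i) (fun i => (a i + b i) / W i)
    (fun i => div_pos (by linarith [hab i]) (hW0 i)) (fun i => hPC i) (fun i => hQC i)
    (fun i => by
      have h1 := hinner (u i) (P i).ofLp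
      have h2 := hinner (u i) (Q i).ofLp
      rw [WithLp.toLp_ofLp] at h1 h2
      rw [smul_dotProduct, dotProduct_sub, ← h1, ← h2, ← hP i, ← hQ i, smul_eq_mul]
      exact div_mul_cancel₀ _ (hW0 i).ne') i0
    (fun y hy => by
      obtain ⟨i, hi⟩ := Set.mem_iUnion.1 (hcov hy)
      simp only [Set.mem_setOf_eq, hinner] at hi
      refine ⟨i, ?_⟩
      have h1 : ((2 / W i) • (u i).ofLp) ⬝ᵥ y - (a i + b i) / W i =
          (2 * ((u i).ofLp ⬝ᵥ y) - (a i + b i)) / W i := by
        rw [smul_dotProduct, smul_eq_mul]; ring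
      rw [h1, abs_div, abs_of_pos (hW0 i)]
      apply div_le_div_of_nonneg_right _ (hW0 i).le
      rw [abs_le]
      constructor <;> linarith [hi.1, hi.2])
  set w := ∑ i, (b i - a i) / W i with hw
  have hw0 : 0 ≤ w := Finset.sum_nonneg (fun i _ => (div_pos (by linarith [hab i]) (hW0 i)).le)
  have h1 : 1 ≤ A * (16 * (d : ℝ) ^ ε) * w :=
    key.trans (mul_le_mul_of_nonneg_right
      ((hgr q).trans (mul_le_mul_of_nonneg_left hq2 hA.le)) hw0)
  have hdp : 0 < (d : ℝ) ^ ε := Real.rpow_pos_of_pos (by exact_mod_cast hd) ε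
  rw [Real.rpow_neg (by positivity), ← div_eq_mul_inv, div_div, div_le_iff₀ (by positivity)]
  linarith

end Pool.Agent.Lib.MP_79af62_gt.Old.PowerBound
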