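import Mathlib

/-! Planks whose spikes lie in all the other planks have total relative width at least one. -/

namespace Pool.Agent.Lib.MP_79af62_gt.Old.Spikes

open Finset

theorem pair {a b s t : ℝ} (a0 : 0 < a) (a1 : 0 < 1 - a) (b0 : 0 < b) (b1 : 0 < 1 - b)
    (s0 : 0 < s) (s1 : 0 < 1 - s) (t0 : 0 < t) (t1 : 0 < 1 - t) :
    (((1 - a) / (1 - s) + a / (1 - t))⁻¹ + ((1 - b) / s + b / t)⁻¹) +
      (((1 - s) / (1 - a) + s / (1 - b))⁻¹ + ((1 - t) / a + t / b)⁻¹) ≤ 2 := by
  have h : 0 ≤ (a * (1 - b) * (1 - s) * t - (1 - a) * b * (1 - t) * s) ^ 2 *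
      (1 - (a - b) * (s - t)) / (((1 - a) * (1 - t) + a * (1 - s)) * ((1 - b) * t + b * s) *
        ((1 - s) * (1 - b) + s * (1 - a)) * ((1 - t) * b + t * a)) :=
    div_nonneg (mul_nonneg (sq_nonneg _) (by
      nlinarith [mul_pos (add_pos a1 b0) (add_pos t1 s0), mul_pos (add_pos b1 a0) (add_pos s1 t0)]))
      (by positivity)
  refine le_of_sub_nonneg (h.trans_eq ?_)
  rw [div_add_div _ _ s1.ne' t1.ne', div_add_div _ _ s0.ne' t0.ne', div_add_div _ _ a1.ne' b1.ne',
    div_add_div _ _ a0.ne' b0.ne', inv_div, inv_div, inv_div, inv_div]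
  have : (1 - a) * (1 - t) + a * (1 - s) ≠ 0 := by positivity
  have : (1 - a) * (1 - t) + (1 - s) * a ≠ 0 := by positivity
  have : (1 - b) * t + b * s ≠ 0 := by positivity
  have : (1 - b) * t + s * b ≠ 0 := by positivity
  have : (1 - s) * (1 - b) + s * (1 - a) ≠ 0 := by positivity
  have : (1 - s) * (1 - b) + (1 - a) * s ≠ 0 := by positivity
  have : (1 - t) * b + t * a ≠ 0 := by positivity
  have : (1 - t) * b + a * t ≠ 0 := by positivity
  field_simp
  ring

theorem aver {ι : Type*} [DecidableEq ι] {s : Finset ι} {ω : ι → ℝ} {T : ι → ι → ℝ}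
    (hs : s.Nonempty) (h0 : ∀ i ∈ s, 0 < ω i)
    (h1 : ∀ n ∈ s, 1 - ω n ≤ ∑ i ∈ s.erase n, ω i * T i n)
    (h2 : ∀ i ∈ s, ∀ n ∈ s, i ≠ n → T i n + T n i ≤ 2) : 1 ≤ ∑ i ∈ s, ω i := by
  have e : ∀ g : ι → ι → ℝ, ∑ n ∈ s, ∑ i ∈ s.erase n, g i n = ∑ n ∈ s, ∑ i ∈ s.erase n, g n i :=
    fun g => sum_comm' fun i n => by simp only [mem_erase]; tauto
  have c1 : ∑ n ∈ s, ω n * (1 - ω n) ≤ ∑ n ∈ s, ∑ i ∈ s.erase n, ω n * ω i * T i n :=
    sum_le_sum fun n hn => by
      simpa only [mul_sum, mul_assoc] using mul_le_mul_of_nonneg_left (h1 n hn) (h0 n hn).le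
  have c2 : ∑ n ∈ s, ∑ i ∈ s.erase n, ω n * ω i * T i n +
      ∑ n ∈ s, ∑ i ∈ s.erase n, ω n * ω i * T i n ≤
      ∑ n ∈ s, 2 * (ω n * (∑ i ∈ s, ω i - ω n)) := by
    nth_rw 2 [e fun i n => ω n * ω i * T i n]
    rw [← sum_add_distrib]
    refine sum_le_sum fun n hn => ?_
    rw [← sum_add_distrib, ← sum_erase_eq_sub hn, mul_sum, mul_sum]
    refine sum_le_sum fun i hi => ?_
    have := mul_le_mul_of_nonneg_left (h2 i (mem_erase.1 hi).2 n hn (mem_erase.1 hi).1)
      (mul_pos (h0 n hn) (h0 i (mem_erase.1 hi).2)).le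
    linarith
  simp only [mul_sub, mul_one, sum_sub_distrib, ← mul_sum, ← sum_mul] at c1 c2
  have := sum_pos h0 hs
  nlinarith

theorem core {E ι : Type*} [AddCommGroup E] [Module ℝ E] [DecidableEq ι]
    (e : ι → Bool → E →ᵃ[ℝ] ℝ) (w : ι → ℝ) (hw : ∀ i, 0 < w i)
    (he : ∀ i x, e i true x + e i false x = -w i) (s : Finset ι) :
    ∀ (C : Set E) (v : ι → Bool → E), Convex ℝ C → C.Nonempty → (∀ i ∈ s, ∀ b, v i b ∈ C) →
      (∀ i ∈ s, ∀ j ∈ s, i ≠ j → ∀ b c, e i b (v j c) < 0) →
      ∑ i ∈ s, w i / (w i + max (e i true (v i true)) 0 + max (e i false (v i false)) 0) < 1 →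
      ∃ x ∈ C, ∀ i ∈ s, ∃ b, 0 ≤ e i b x := by
  induction s using Finset.strongInduction with
  | H s ih =>
  intro C v hC hne hv hf hs
  rcases s.eq_empty_or_nonempty with rfl | hs0
  · exact ⟨_, hne.choose_spec, by simp⟩
  by_contra hn
  let P : ι → Bool → ℝ := fun i b => max (e i b (v i b)) 0
  let D : ι → ℝ := fun i => w i + P i true + P i false
  have P0 : ∀ i b, 0 ≤ P i b := fun i b => le_max_right _ _
  have D0 : ∀ i, 0 < D i := fun i =>
    add_pos_of_pos_of_nonneg (add_pos_of_pos_of_nonneg (hw i) (P0 _ _)) (P0 _ _)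
  let z : ι → Bool → E → ℝ := fun i b x => (P i b - e i b x) / D i
  have z0 : ∀ i ∈ s, ∀ j ∈ s, i ≠ j → ∀ b c, 0 < z i b (v j c) := fun i hi j hj h b c =>
    div_pos (by linarith [P0 i b, hf i hi j hj h b c]) (D0 i)
  have z1 : ∀ i x, z i true x = 1 - z i false x := fun i x => by
    simp only [z]
    rw [eq_sub_iff_add_eq, ← add_div, div_eq_one_iff_eq (D0 i).ne']
    simp only [D]
    linarith [he i x]
  let X : ι → ι → Bool → ℝ := fun i n b =>
    (z i true (v n b) / z n b (v i true) + z i false (v n b) / z n b (v i false))⁻¹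
  have key : ∀ n ∈ s, ∀ b, P n b / D n ≤ ∑ i ∈ s.erase n, w i / D i * X i n b := by
    intro n hn' b
    have X0 : ∀ i ∈ s.erase n, 0 < z i true (v n b) / z n b (v i true) +
        z i false (v n b) / z n b (v i false) := fun i hi => by
      obtain ⟨h1, h2⟩ := mem_erase.1 hi
      exact add_pos (div_pos (z0 i h2 n hn' h1 _ _) (z0 n hn' i h2 h1.symm _ _))
        (div_pos (z0 i h2 n hn' h1 _ _) (z0 n hn' i h2 h1.symm _ _))
    rcases (P0 n b).eq_or_lt with h | h
    · rw [← h, zero_div]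
      exact sum_nonneg fun i hi =>
        mul_nonneg (div_pos (hw i) (D0 i)).le (inv_pos.2 (X0 i hi)).le
    have eP : e n b (v n b) = P n b := (max_eq_left (lt_max_iff.1 h |>.resolve_right
      (lt_irrefl _)).le).symm
    let l : E → ℝ := fun x => P n b / (P n b - e n b x)
    have l0 : ∀ j ∈ s.erase n, ∀ c, 0 < l (v j c) ∧ l (v j c) ≤ 1 := fun j hj c => by
      have := hf n hn' j (mem_erase.1 hj).2 (mem_erase.1 hj).1.symm b c
      exact ⟨div_pos h (by linarith), (div_le_one (by linarith)).2 (by linarith)⟩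
    let v' : ι → Bool → E := fun j c => AffineMap.lineMap (v n b) (v j c) (l (v j c))
    have ev : ∀ i c j c', e i c (v' j c') =
        e i c (v n b) + l (v j c') * (e i c (v j c') - e i c (v n b)) := fun i c j c' => by
      simp only [v', AffineMap.apply_lineMap, AffineMap.lineMap_apply_ring']
      ring
    have h1 : 1 ≤ ∑ i ∈ s.erase n,
        w i / (w i + max (e i true (v' i true)) 0 + max (e i false (v' i false)) 0) := by
      by_contra h1
      obtain ⟨x, hx, h2⟩ := ih _ (erase_ssubset hn') (C ∩ e n b ⁻¹' Set.Ici 0) v'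
        (hC.inter ((convex_Ici 0).affine_preimage _)) ⟨v n b, hv n hn' b, (eP ▸ h.le :)⟩
        (fun j hj c => ⟨hC.lineMap_mem (hv n hn' b) (hv j (mem_erase.1 hj).2 c)
          ⟨(l0 j hj c).1.le, (l0 j hj c).2⟩, by
            have := hf n hn' j (mem_erase.1 hj).2 (mem_erase.1 hj).1.symm b c
            change 0 ≤ e n b (v' j c)
            rw [ev, eP, ← neg_sub (P n b), mul_neg, div_mul_cancel₀ _ (by linarith)]
            simp⟩)
        (fun i hi j hj ne c c' => by
          have a1 := hf i (mem_erase.1 hi).2 n hn' (mem_erase.1 hi).1 c b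
          have a2 := hf i (mem_erase.1 hi).2 j (mem_erase.1 hj).2 ne c c'
          rw [ev]
          nlinarith [(l0 j hj c').1, (l0 j hj c').2]) (not_le.1 h1)
      refine hn ⟨x, hx.1, fun i hi => ?_⟩
      by_cases h3 : i = n
      · exact ⟨b, h3 ▸ hx.2⟩
      · exact h2 i (mem_erase.2 ⟨h3, hi⟩)
    refine (le_mul_of_one_le_right (div_pos h (D0 n)).le h1).trans ?_
    rw [mul_sum]
    refine sum_le_sum fun i hi => ?_
    obtain ⟨i1, i2⟩ := mem_erase.1 hi
    have a : ∀ c, P n b / D n * D i * (z i c (v n b) / z n b (v i c)) ≤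
        max (e i c (v' i c)) 0 - e i c (v n b) := fun c => by
      have a1 := hf i i2 n hn' i1 c b
      have a2 := hf n hn' i i2 i1.symm b c
      have a3 : P n b / D n * D i * (z i c (v n b) / z n b (v i c)) =
          l (v i c) * (P i c - e i c (v n b)) := by
        have := (D0 i).ne'
        have := (D0 n).ne'
        have : P n b - e n b (v i c) ≠ 0 := by linarith
        simp only [z, l]
        field_simp
      rw [a3]
      rcases le_total (e i c (v i c)) 0 with h4 | h4
      · have := le_max_right (e i c (v' i c)) 0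
        simp only [P, max_eq_right h4]
        nlinarith [(l0 i hi c).2]
      · have := le_max_left (e i c (v' i c)) 0
        simp only [P, max_eq_left h4]
        rw [ev] at this ⊢
        linarith
    have a4 := mul_pos (mul_pos (div_pos h (D0 n)) (D0 i)) (X0 i hi)
    calc _ ≤ P n b / D n * (w i / (P n b / D n * D i * (z i true (v n b) / z n b (v i true) +
          z i false (v n b) / z n b (v i false)))) := by
          refine mul_le_mul_of_nonneg_left (div_le_div_of_nonneg_left (hw i).le a4 ?_)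
            (div_pos h (D0 n)).le
          linarith [a true, a false, he i (v n b)]
      _ = _ := by
          have := (D0 i).ne'
          have := (D0 n).ne'
          have := (X0 i hi).ne'
          simp only [X]
          generalize z i true (v n b) / z n b (v i true) +
            z i false (v n b) / z n b (v i false) = y at this
          field_simp
  refine (aver (T := fun i n => X i n true + X i n false) hs0
    (fun i _ => div_pos (hw i) (D0 i)) (fun n hn' => ?_) fun i hi n hn' ne => ?_).not_gt hs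
  · simp only [mul_add, sum_add_distrib]
    refine le_trans (le_of_eq ?_) (add_le_add (key n hn' true) (key n hn' false))
    rw [← add_div, eq_div_iff (D0 n).ne', sub_mul, div_mul_cancel₀ _ (D0 n).ne']
    simp only [D]
    ring
  · have a := z0 i hi n hn' ne
    have b := z0 n hn' i hi ne.symm
    simp only [X, z1]
    exact pair (a false true) (z1 i _ ▸ a true true) (a false false) (z1 i _ ▸ a true false)
      (b false true) (z1 n _ ▸ b true true) (b false false) (z1 n _ ▸ b true false)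

theorem result (d n : ℕ) (C : Set (EuclideanSpace ℝ (Fin d))) (hC : Convex ℝ C) (h0 : C.Nonempty)
    (u : Fin n → EuclideanSpace ℝ (Fin d)) (a b : Fin n → ℝ) (hab : ∀ i, a i < b i)
    (cov : C ⊆ ⋃ i, {x | a i ≤ inner ℝ (u i) x ∧ inner ℝ (u i) x ≤ b i})
    (p q : Fin n → EuclideanSpace ℝ (Fin d)) (hp : ∀ i, p i ∈ C) (hq : ∀ i, q i ∈ C)
    (hpq : ∀ i, inner ℝ (u i) (q i) < inner ℝ (u i) (p i))
    (hin : ∀ i j, i ≠ j → (a i ≤ inner ℝ (u i) (p j) ∧ inner ℝ (u i) (p j) ≤ b i) ∧
      (a i ≤ inner ℝ (u i) (q j) ∧ inner ℝ (u i) (q j) ≤ b i)) :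
    1 ≤ ∑ i, (b i - a i) / (inner ℝ (u i) (p i) - inner ℝ (u i) (q i)) := by
  by_contra h
  have d0 : ∀ i, 0 < inner ℝ (u i) (p i) - inner ℝ (u i) (q i) := fun i => sub_pos.2 (hpq i)
  obtain ⟨ε, ε0, hε⟩ : ∃ ε : ℝ, 0 < ε ∧
      ∑ i, (b i - a i + 2 * ε) / (inner ℝ (u i) (p i) - inner ℝ (u i) (q i)) < 1 := by
    have c : Continuous fun ε : ℝ =>
        ∑ i, (b i - a i + 2 * ε) / (inner ℝ (u i) (p i) - inner ℝ (u i) (q i)) := by fun_prop
    have := (c.tendsto 0).eventually_lt_const (show _ < (1 : ℝ) by simpa using h)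
    exact ((eventually_mem_nhdsWithin (s := Set.Ioi 0)).and (nhdsWithin_le_nhds this)).exists
  let f := fun i => (innerSL ℝ (u i)).toLinearMap.toAffineMap
  let e : Fin n → Bool → EuclideanSpace ℝ (Fin d) →ᵃ[ℝ] ℝ := fun i c =>
    bif c then f i - AffineMap.const ℝ _ (b i + ε) else AffineMap.const ℝ _ (a i - ε) - f i
  have e1 : ∀ i x, e i true x = inner ℝ (u i) x - (b i + ε) := fun i x => by simp [e, f]
  have e2 : ∀ i x, e i false x = a i - ε - inner ℝ (u i) x := fun i x => by simp [e, f]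
  obtain ⟨x, hx, h1⟩ := core e (fun i => b i - a i + 2 * ε) (fun i => by linarith [hab i])
    (fun i x => by rw [e1, e2]; ring) univ C (fun i c => bif c then p i else q i) hC h0
    (fun i _ c => by cases c <;> simp [hp, hq]) (fun i _ j _ ne c c' => by
      obtain ⟨⟨h1, h2⟩, h3, h4⟩ := hin i j ne
      cases c <;> cases c' <;> simp only [e1, e2, cond_true, cond_false] <;> linarith)
    (lt_of_le_of_lt (sum_le_sum fun i _ => div_le_div_of_nonneg_left (by linarith [hab i]) (d0 i)
      (by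
        simp only [e1, e2, cond_true, cond_false]
        linarith [le_max_left (inner ℝ (u i) (p i) - (b i + ε)) 0,
          le_max_left (a i - ε - inner ℝ (u i) (q i)) 0])) hε)
  obtain ⟨i, h2, h3⟩ := Set.mem_iUnion.1 (cov hx)
  obtain ⟨c, h4⟩ := h1 i (mem_univ i)
  cases c
  · rw [e2] at h4
    linarith
  · rw [e1] at h4
    linarith

end Pool.Agent.Lib.MP_79af62_gt.Old.Spikes
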