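import Mathlib

/-! Three planks covering a convex body have total relative width at least one. -/

namespace Pool.Agent.Lib.MP_79af62_gt.Old.ThreePlanks

theorem par_le {m n : ℝ} (l : ℝ) (hm : 0 < m) (hn : 0 < n) :
    m * n / (m + n) ≤ m * l ^ 2 + n * (1 - l) ^ 2 := by
  rw [div_le_iff₀ (by positivity)]
  nlinarith [sq_nonneg (m * l - n * (1 - l))]

theorem par_le' {m n t α β : ℝ} (hm : 0 < m) (hn : 0 < n) (t0 : 0 ≤ t) (t1 : t ≤ 1) :
    m * n / (m + n) ≤ m * (α ^ 2 + ((1 - β) ^ 2 - α ^ 2) * t) +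
      n * (β ^ 2 + ((1 - α) ^ 2 - β ^ 2) * (1 - t)) := by
  have h := par_le ((1 - t) * α + t * (1 - β)) hm hn
  have h1 : 0 ≤ (m + n) * (t * (1 - t) * (1 - α - β) ^ 2) :=
    mul_nonneg (by positivity) (mul_nonneg (mul_nonneg t0 (by linarith)) (sq_nonneg _))
  nlinarith

theorem cert {m1 m2 m3 m4 g k t r : ℝ} (h1 : 0 < m1) (h2 : 0 < m2) (h3 : 0 < m3) (h4 : 0 < m4)
    (hg : m1 + m4 ≤ g) (hk : m2 + m3 ≤ k) (t0 : 0 ≤ t) (t1 : t ≤ 1) (r0 : 0 ≤ r) (r1 : r ≤ 1)
    (hg' : m1 * t + m4 * r ≤ g - 1) (hk' : m2 * (1 - t) + m3 * (1 - r) ≤ k - 1)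
    (hs : 1 ≤ 1 / g + 1 / k) :
    1 / g + 1 / k + (m1 * m2 / (m1 + m2) + m4 * m3 / (m4 + m3)) ≤ 2 := by
  have g1 : 1 ≤ g := by nlinarith [mul_nonneg h1.le t0, mul_nonneg h4.le r0]
  have k1 : 1 ≤ k := by
    nlinarith [mul_nonneg h2.le (sub_nonneg.2 t1), mul_nonneg h3.le (sub_nonneg.2 r1)]
  have g0 : 0 < g := by linarith
  have k0 : 0 < k := by linarith
  set x := 1 / g with hx
  set y := 1 / k with hy
  have xg : x * g = 1 := by rw [hx]; field_simp
  have yk : y * k = 1 := by rw [hy]; field_simp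
  have x1 : x ≤ 1 := by rw [hx, div_le_one g0]; exact g1
  have y1 : y ≤ 1 := by rw [hy, div_le_one k0]; exact k1
  have a := par_le' (α := 1 - y) (β := 1 - x) h1 h2 t0 t1
  have b := par_le' (α := 1 - y) (β := 1 - x) h4 h3 r0 r1
  have C0 : 0 ≤ (1 - (1 - x)) ^ 2 - (1 - y) ^ 2 := by nlinarith
  have D0 : 0 ≤ (1 - (1 - y)) ^ 2 - (1 - x) ^ 2 := by nlinarith
  have e1 := mul_le_mul_of_nonneg_left hg (sq_nonneg (1 - y))
  have e2 := mul_le_mul_of_nonneg_left hk (sq_nonneg (1 - x))
  have e3 := mul_le_mul_of_nonneg_left hg' C0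
  have e4 := mul_le_mul_of_nonneg_left hk' D0
  have e5 : x ^ 2 * g = x := by rw [sq, mul_assoc, xg, mul_one]
  have e6 : y ^ 2 * k = y := by rw [sq, mul_assoc, yk, mul_one]
  nlinarith

theorem term1 {a c μ W V : ℝ} (ha : 0 ≤ a) (hc : 0 < c) (hμ : 0 < μ) (hW : a < W) (hV : 0 < V)
    (h : μ * a ≤ c) : a / c * (V / W) ≤ 1 / ((c + μ * (W - a)) / V) := by
  have hW0 : 0 < W := by linarith
  have h1 : 0 < W - a := by linarith
  rw [one_div_div, div_mul_div_comm, div_le_div_iff₀ (by positivity) (by positivity)]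
  nlinarith [mul_le_mul_of_nonneg_right h (mul_pos h1 hV).le]

theorem term2 {b d n1 n2 W V : ℝ} (hd : 0 < d) (h1 : 0 < n1) (h2 : 0 < n2)
    (hW : 0 < W) (hV : 0 < V) (h : b * (1 / n1 + 1 / n2) ≤ d) :
    b / d * (W / V) ≤ n1 * (W / V) * (n2 * (W / V)) / (n1 * (W / V) + n2 * (W / V)) := by
  have e : n1 * (W / V) * (n2 * (W / V)) / (n1 * (W / V) + n2 * (W / V)) =
      1 / (1 / n1 + 1 / n2) * (W / V) := by field_simp; ring
  rw [e]
  refine mul_le_mul_of_nonneg_right ?_ (by positivity)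
  rw [div_le_div_iff₀ hd (by positivity)]
  linarith

theorem half {n1 n2 n3 n4 E1 E2 E3 E4 hp hm kp km sp sm tp tm : ℝ}
    (h1 : 0 < n1) (h2 : 0 < n2) (h3 : 0 < n3) (h4 : 0 < n4)
    (e1 : 0 ≤ E1) (e2 : 0 ≤ E2) (e3 : 0 ≤ E3) (e4 : 0 ≤ E4)
    (a1 : 1 ≤ hp) (a2 : 1 ≤ hm) (a3 : 1 ≤ kp) (a4 : 1 ≤ km)
    (R1 : n1 * (hp - 1) + (sp - 1) ≤ E1) (R4 : n4 * (hp - 1) + (-sp - 1) ≤ E4)
    (L2 : n2 * (hm - 1) + (sm - 1) ≤ E2) (L3 : n3 * (hm - 1) + (-sm - 1) ≤ E3)
    (T1 : n1 * (tp - 1) + (kp - 1) ≤ E1) (T2 : n2 * (-tp - 1) + (kp - 1) ≤ E2)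
    (B4 : n4 * (tm - 1) + (km - 1) ≤ E4) (B3 : n3 * (-tm - 1) + (km - 1) ≤ E3)
    (b1 : tp ≤ hp) (b2 : -tp ≤ hm) (b3 : tm ≤ hp) (b4 : -tm ≤ hm)
    (hX : 1 ≤ ((hp - 1) / (2 + E1 + E4) + (hm - 1) / (2 + E2 + E3)) * ((kp + km) / (hp + hm))) :
    ((hp - 1) / (2 + E1 + E4) + (hm - 1) / (2 + E2 + E3)) * ((kp + km) / (hp + hm)) +
      ((kp - 1) / (2 + E1 / n1 + E2 / n2) + (km - 1) / (2 + E4 / n4 + E3 / n3)) *
        ((hp + hm) / (kp + km)) ≤ 2 := by
  set W := hp + hm with hW
  set V := kp + km with hV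
  have W0 : 0 < W := by linarith
  have V0 : 0 < V := by linarith
  have x1 := term1 (a := hp - 1) (c := 2 + E1 + E4) (μ := n1 + n4) (W := W) (V := V)
    (by linarith) (by linarith) (by linarith) (by linarith) V0 (by linarith)
  have x2 := term1 (a := hm - 1) (c := 2 + E2 + E3) (μ := n2 + n3) (W := W) (V := V)
    (by linarith) (by linarith) (by linarith) (by linarith) V0 (by linarith)
  have dv : ∀ {n E t k : ℝ}, 0 < n → n * (t - 1) + (k - 1) ≤ E →
      t - 1 + (k - 1) * (1 / n) ≤ E / n := by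
    intro n E t k hn h
    rw [le_div_iff₀ hn]
    have : (t - 1 + (k - 1) * (1 / n)) * n = n * (t - 1) + (k - 1) := by field_simp
    linarith
  have y1 := term2 (b := kp - 1) (d := 2 + E1 / n1 + E2 / n2) (by positivity) h1 h2 W0 V0
    (by linarith [dv h1 T1, dv h2 T2])
  have y2 := term2 (b := km - 1) (d := 2 + E4 / n4 + E3 / n3) (by positivity) h4 h3 W0 V0
    (by linarith [dv h4 B4, dv h3 B3])
  have q : 0 < W / V := by positivity
  have f : ∀ n t : ℝ, n * (W / V) * (t / W) = n * t / V := fun n t => by field_simp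
  have f' : ∀ n t : ℝ, n * (W / V) * (1 - t / W) = n * (W - t) / V := fun n t => by field_simp
  have c := cert (m1 := n1 * (W / V)) (m2 := n2 * (W / V)) (m3 := n3 * (W / V))
    (m4 := n4 * (W / V)) (g := (2 + E1 + E4 + (n1 + n4) * (W - (hp - 1))) / V)
    (k := (2 + E2 + E3 + (n2 + n3) * (W - (hm - 1))) / V) (t := (tp + hm) / W)
    (r := (tm + hm) / W) (by positivity) (by positivity) (by positivity) (by positivity)
    (by rw [← add_mul, ← mul_div_assoc]
        exact div_le_div_of_nonneg_right (by linarith) V0.le)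
    (by rw [← add_mul, ← mul_div_assoc]
        exact div_le_div_of_nonneg_right (by linarith) V0.le)
    (div_nonneg (by linarith) W0.le) ((div_le_one W0).2 (by linarith))
    (div_nonneg (by linarith) W0.le) ((div_le_one W0).2 (by linarith))
    (by rw [f, f, ← add_div, div_sub_one V0.ne']
        exact div_le_div_of_nonneg_right (by rw [hW, hV]; linarith) V0.le)
    (by rw [f', f', ← add_div, div_sub_one V0.ne']
        exact div_le_div_of_nonneg_right (by rw [hW, hV]; linarith) V0.le)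
    (by linarith)
  linarith

/-- the sign of a side -/
def sg (b : Bool) : ℝ := if b then 1 else -1

/-- the length of a section between two lines -/
noncomputable def sec (B C : Bool → ℝ) : ℝ := 2 + C true / B true + C false / B false

/-- the cap heights over the sections, in units of the widths -/
noncomputable def tm (h k : Bool → ℝ) (B C : Bool → Bool → ℝ) : ℝ :=
  ((h true - 1) / sec (B true) (C true) + (h false - 1) / sec (B false) (C false)) *
    ((k true + k false) / (h true + h false))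

theorem halfB {A B C : Bool → Bool → ℝ} {h k s t : Bool → ℝ} (hA : ∀ e d, 0 < A e d)
    (hB : ∀ e d, 0 < B e d) (hC : ∀ e d, 0 ≤ C e d) (h1 : ∀ e, 1 ≤ h e) (k1 : ∀ d, 1 ≤ k d)
    (P : ∀ e d, A e d * (h e - 1) + B e d * (sg d * s e - 1) ≤ C e d)
    (Q : ∀ e d, A e d * (sg e * t d - 1) + B e d * (k d - 1) ≤ C e d)
    (bt : ∀ e d, sg e * t d ≤ h e) (hX : 1 ≤ tm h k B C) :
    tm h k B C + tm k h (fun d e => A e d) (fun d e => C e d) ≤ 2 := by
  have dv : ∀ e d {x y : ℝ}, A e d * x + B e d * y ≤ C e d →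
      A e d / B e d * x + y ≤ C e d / B e d := by
    intro e d x y H
    have := hB e d
    rw [le_div_iff₀ this]
    have : (A e d / B e d * x + y) * B e d = A e d * x + B e d * y := by field_simp
    linarith
  have n0 : ∀ e d, 0 < A e d / B e d := fun e d => div_pos (hA e d) (hB e d)
  have E0 : ∀ e d, 0 ≤ C e d / B e d := fun e d => div_nonneg (hC e d) (hB e d).le
  have ee : ∀ e d, C e d / B e d / (A e d / B e d) = C e d / A e d := fun e d => by
    have := hA e d
    have := hB e d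
    field_simp
  have key := half (sp := s true) (sm := s false) (tp := t true) (tm := t false)
    (n0 true true) (n0 false true) (n0 false false) (n0 true false)
    (E0 true true) (E0 false true) (E0 false false) (E0 true false)
    (h1 true) (h1 false) (k1 true) (k1 false)
    (by simpa [sg] using dv _ _ (P true true)) (by simpa [sg] using dv _ _ (P true false))
    (by simpa [sg] using dv _ _ (P false true)) (by simpa [sg] using dv _ _ (P false false))
    (by simpa [sg] using dv _ _ (Q true true)) (by simpa [sg] using dv _ _ (Q false true))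
    (by simpa [sg] using dv _ _ (Q true false)) (by simpa [sg] using dv _ _ (Q false false))
    (by simpa [sg] using bt true true) (by simpa [sg] using bt false true)
    (by simpa [sg] using bt true false) (by simpa [sg] using bt false false) hX
  rw [ee, ee, ee, ee] at key
  exact key

theorem pl {A B C : Bool → Bool → ℝ} {h k s t : Bool → ℝ} (hA : ∀ e d, 0 < A e d)
    (hB : ∀ e d, 0 < B e d) (hC : ∀ e d, 0 ≤ C e d) (h1 : ∀ e, 1 ≤ h e) (k1 : ∀ d, 1 ≤ k d)
    (P : ∀ e d, A e d * (h e - 1) + B e d * (sg d * s e - 1) ≤ C e d)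
    (Q : ∀ e d, A e d * (sg e * t d - 1) + B e d * (k d - 1) ≤ C e d)
    (bt : ∀ e d, sg e * t d ≤ h e) (bs : ∀ e d, sg d * s e ≤ k d) :
    tm h k B C + tm k h (fun d e => A e d) (fun d e => C e d) ≤ 2 := by
  by_cases hX : 1 ≤ tm h k B C
  · exact halfB hA hB hC h1 k1 P Q bt hX
  by_cases hY : 1 ≤ tm k h (fun d e => A e d) (fun d e => C e d)
  · have := halfB (A := fun d e => B e d) (B := fun d e => A e d) (C := fun d e => C e d)
      (h := k) (k := h) (s := t) (t := s) (fun d e => hB e d) (fun d e => hA e d)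
      (fun d e => hC e d) k1 h1 (fun d e => by linarith [Q e d]) (fun d e => by linarith [P e d])
      (fun d e => bs e d) hY
    linarith
  · linarith [not_le.1 hX, not_le.1 hY]

theorem serpar {a b c d : ℝ} (ha : 0 < a) (hb : 0 < b) (hc : 0 < c) (hd : 0 < d) :
    1 ≤ 2 / (2 + 2 / (a + b) + 2 / (c + d)) +
      2 / (2 + 2 * (a * c / (a + c)) + 2 * (b * d / (b + d))) := by
  have h1 := par_le ((c + d) / (a + b + c + d)) ha hc
  have h2 := par_le ((c + d) / (a + b + c + d)) hb hd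
  have h3 : a * c / (a + c) + b * d / (b + d) ≤ (a + b) * (c + d) / (a + b + c + d) := by
    refine (add_le_add h1 h2).trans_eq ?_
    field_simp
    ring
  have h4 : (2 / (a + b) + 2 / (c + d)) * ((a + b) * (c + d) / (a + b + c + d)) = 2 := by
    field_simp
    ring
  have x0 : 0 < 2 / (a + b) + 2 / (c + d) := by positivity
  have h5 := mul_le_mul_of_nonneg_left h3 x0.le
  have y0 : 0 < a * c / (a + c) + b * d / (b + d) := by positivity
  rw [div_add_div _ _ (by positivity) (by positivity), le_div_iff₀ (by positivity)]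
  nlinarith

/-- elimination of the last coordinate: the coefficient -/
def co (p q : Bool → ℝ) : ℝ := q false * p true + q true * p false

/-- elimination of the last coordinate: the right-hand side -/
def rh (q : Bool → ℝ) : ℝ := 2 * (q true * q false)

theorem wall {p q : Bool → Bool → ℝ} (hp : ∀ d e, 0 < p d e) (hq : ∀ d e, 0 < q d e) :
    1 ≤ 2 / sec (fun d => co (p d) (q d)) (fun d => rh (q d)) +
      2 / sec (fun e => co (fun d => q d e) fun d => p d e) (fun e => rh fun d => p d e) := by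
  have n0 : ∀ d e, 0 < p d e / q d e := fun d e => div_pos (hp d e) (hq d e)
  have e1 : ∀ d, rh (q d) / co (p d) (q d) = 2 / (p d true / q d true + p d false / q d false) := by
    intro d
    have := hp d true
    have := hp d false
    have := hq d true
    have := hq d false
    simp only [rh, co]
    field_simp
  have e2 : ∀ e, (rh fun d => p d e) / co (fun d => q d e) (fun d => p d e) =
      2 * (p true e / q true e * (p false e / q false e) /
        (p true e / q true e + p false e / q false e)) := by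
    intro e
    have := hp true e
    have := hp false e
    have := hq true e
    have := hq false e
    simp only [rh, co]
    field_simp
    ring
  simp only [sec, e1, e2]
  exact serpar (n0 _ _) (n0 _ _) (n0 _ _) (n0 _ _)

theorem elim {p q r : Bool → ℝ} {X Y z : ℝ} (hr : ∀ f, 0 < r f)
    (H : ∀ f, p f * X + q f * Y + r f * (sg f * z - 1) ≤ 0) :
    co p r * X + co q r * Y ≤ rh r := by
  have h1 := mul_le_mul_of_nonneg_left (H true) (hr false).le
  have h2 := mul_le_mul_of_nonneg_left (H false) (hr true).le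
  simp only [sg, if_true, Bool.false_eq_true, if_false] at h1 h2
  simp only [co, rh]
  linarith

theorem co_pos {p q : Bool → ℝ} (hp : ∀ f, 0 < p f) (hq : ∀ f, 0 < q f) : 0 < co p q :=
  add_pos (mul_pos (hq _) (hp _)) (mul_pos (hq _) (hp _))

theorem pairStep {p q r : Bool → Bool → Bool → ℝ} {h k s s' t t' : Bool → ℝ}
    (hp : ∀ e d f, 0 < p e d f) (hq : ∀ e d f, 0 < q e d f) (hr : ∀ e d f, 0 < r e d f)
    (h1 : ∀ e, 1 ≤ h e) (k1 : ∀ d, 1 ≤ k d)
    (P : ∀ e d f, p e d f * (h e - 1) + q e d f * (sg d * s e - 1) +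
      r e d f * (sg f * s' e - 1) ≤ 0)
    (Q : ∀ e d f, p e d f * (sg e * t d - 1) + q e d f * (k d - 1) +
      r e d f * (sg f * t' d - 1) ≤ 0)
    (bt : ∀ e d, sg e * t d ≤ h e) (bs : ∀ e d, sg d * s e ≤ k d) :
    tm h k (fun e d => co (q e d) (r e d)) (fun e d => rh (r e d)) +
      tm k h (fun d e => co (p e d) (r e d)) (fun d e => rh (r e d)) ≤ 2 :=
  pl (A := fun e d => co (p e d) (r e d)) (fun e d => co_pos (hp e d) (hr e d))
    (fun e d => co_pos (hq e d) (hr e d))
    (fun e d => mul_nonneg zero_le_two (mul_pos (hr e d _) (hr e d _)).le) h1 k1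
    (fun e d => elim (hr e d) (P e d)) (fun e d => elim (hr e d) (Q e d)) bt bs

theorem cap {h c c' : Bool → ℝ} (h1 : ∀ e, 1 ≤ h e) (H : ∀ e, 1 ≤ 2 / c e + 2 / c' e) :
    h true + h false - 2 ≤ 2 * (((h true - 1) / c true + (h false - 1) / c false) +
      ((h true - 1) / c' true + (h false - 1) / c' false)) := by
  have : ∀ e, h e - 1 ≤ 2 * ((h e - 1) / c e + (h e - 1) / c' e) := fun e =>
    (le_mul_of_one_le_right (sub_nonneg.2 (h1 e)) (H e)).trans_eq (by ring)
  linarith [this true, this false]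

theorem fin {U V W a a' b b' c c' : ℝ} (hU : 0 < U) (hV : 0 < V) (hW : 0 < W)
    (h1 : U - 2 ≤ 2 * (a + a')) (h2 : V - 2 ≤ 2 * (b + b')) (h3 : W - 2 ≤ 2 * (c + c'))
    (p1 : a * (V / U) + b * (U / V) ≤ 2) (p2 : a' * (W / U) + c * (U / W) ≤ 2)
    (p3 : b' * (W / V) + c' * (V / W) ≤ 2) : 1 ≤ 2 / U + 2 / V + 2 / W := by
  have k1 : ∀ {U x : ℝ}, 0 < U → U - 2 ≤ 2 * x → U⁻¹ - 2 * U⁻¹ ^ 2 ≤ 2 * (x * U⁻¹ ^ 2) := by
    intro U x hU h
    have := mul_le_mul_of_nonneg_right h (sq_nonneg U⁻¹)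
    have e : (U - 2) * U⁻¹ ^ 2 = U⁻¹ - 2 * U⁻¹ ^ 2 := by field_simp
    linarith
  have k2 : ∀ {U V x y : ℝ}, 0 < U → 0 < V → x * (V / U) + y * (U / V) ≤ 2 →
      x * U⁻¹ ^ 2 + y * V⁻¹ ^ 2 ≤ 2 * (U⁻¹ * V⁻¹) := by
    intro U V x y hU hV h
    refine le_of_eq_of_le ?_ (mul_le_mul_of_nonneg_right h (by positivity))
    field_simp
  have s0 : 0 < U⁻¹ + V⁻¹ + W⁻¹ := by positivity
  have : (U⁻¹ + V⁻¹ + W⁻¹) * 1 ≤ (U⁻¹ + V⁻¹ + W⁻¹) * (2 * (U⁻¹ + V⁻¹ + W⁻¹)) := by
    nlinarith [k1 hU h1, k1 hV h2, k1 hW h3, k2 hU hV p1, k2 hU hW p2, k2 hV hW p3]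
  have := le_of_mul_le_mul_left this s0
  simp only [div_eq_mul_inv]
  linarith

theorem sg_sq (e : Bool) (x : ℝ) : sg e * (sg e * x) = x := by cases e <;> simp [sg]

theorem core {y : Fin 3 → Bool → Bool → Bool → ℝ} {h : Fin 3 → Bool → ℝ}
    {x : Fin 3 → Bool → Fin 3 → ℝ} (hy : ∀ j e d f, 0 < y j e d f) (h1 : ∀ j e, 1 ≤ h j e)
    (hx : ∀ j e, sg e * x j e j = h j e) (hb : ∀ j e k d, sg d * x j e k ≤ h k d)
    (H : ∀ j b e d f, y 0 e d f * (sg e * x j b 0 - 1) + y 1 e d f * (sg d * x j b 1 - 1) +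
      y 2 e d f * (sg f * x j b 2 - 1) ≤ 0) :
    1 ≤ 2 / (h 0 true + h 0 false) + 2 / (h 1 true + h 1 false) + 2 / (h 2 true + h 2 false) := by
  have W0 : ∀ j, 0 < h j true + h j false := fun j => by linarith [h1 j true, h1 j false]
  have p1 := pairStep (p := y 0) (q := y 1) (r := y 2) (h := h 0) (k := h 1)
    (s := fun e => x 0 e 1) (s' := fun e => x 0 e 2) (t := fun d => x 1 d 0)
    (t' := fun d => x 1 d 2) (hy 0) (hy 1) (hy 2) (h1 0) (h1 1)
    (fun e d f => by rw [← hx]; exact H 0 e e d f) (fun e d f => by rw [← hx]; exact H 1 d e d f)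
    (fun e d => hb _ _ _ _) (fun e d => hb _ _ _ _)
  have p2 := pairStep (p := fun e f d => y 0 e d f) (q := fun e f d => y 2 e d f)
    (r := fun e f d => y 1 e d f) (h := h 0) (k := h 2)
    (s := fun e => x 0 e 2) (s' := fun e => x 0 e 1) (t := fun d => x 2 d 0)
    (t' := fun d => x 2 d 1) (fun _ _ _ => hy _ _ _ _) (fun _ _ _ => hy _ _ _ _)
    (fun _ _ _ => hy _ _ _ _) (h1 0) (h1 2)
    (fun e f d => by rw [← hx]; linarith [H 0 e e d f])
    (fun e f d => by rw [← hx]; linarith [H 2 f e d f])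
    (fun e d => hb _ _ _ _) (fun e d => hb _ _ _ _)
  have p3 := pairStep (p := fun d f e => y 1 e d f) (q := fun d f e => y 2 e d f)
    (r := fun d f e => y 0 e d f) (h := h 1) (k := h 2)
    (s := fun e => x 1 e 2) (s' := fun e => x 1 e 0) (t := fun d => x 2 d 1)
    (t' := fun d => x 2 d 0) (fun _ _ _ => hy _ _ _ _) (fun _ _ _ => hy _ _ _ _)
    (fun _ _ _ => hy _ _ _ _) (h1 1) (h1 2)
    (fun d f e => by rw [← hx]; linarith [H 1 d e d f])
    (fun d f e => by rw [← hx]; linarith [H 2 f e d f])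
    (fun e d => hb _ _ _ _) (fun e d => hb _ _ _ _)
  exact fin (W0 0) (W0 1) (W0 2)
    (cap (h1 0) fun e => wall (p := y 1 e) (q := y 2 e) (hy 1 e) (hy 2 e))
    (cap (h1 1) fun d => wall (p := fun e f => y 0 e d f) (q := fun e f => y 2 e d f)
      (fun _ _ => hy _ _ _ _) (fun _ _ => hy _ _ _ _))
    (cap (h1 2) fun f => wall (p := fun e d => y 0 e d f) (q := fun e d => y 1 e d f)
      (fun _ _ => hy _ _ _ _) (fun _ _ => hy _ _ _ _)) p1 p2 p3

theorem sg_le (e d : Bool) : sg d * sg e ≤ 1 := by cases e <;> cases d <;> simp [sg]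

theorem core2 {y : Fin 3 → Bool → Bool → Bool → ℝ} {h : Fin 3 → Bool → ℝ}
    {x : Fin 3 → Bool → Fin 3 → ℝ} (hy : ∀ j e d f, 0 < y j e d f)
    (W0 : ∀ j, 0 < h j true + h j false)
    (hx : ∀ j e, sg e * x j e j = h j e) (hb : ∀ j e k d, sg d * x j e k ≤ h k d)
    (H : ∀ j b e d f, y 0 e d f * (sg e * x j b 0 - 1) + y 1 e d f * (sg d * x j b 1 - 1) +
      y 2 e d f * (sg f * x j b 2 - 1) ≤ 0) :
    1 ≤ 2 / (h 0 true + h 0 false) + 2 / (h 1 true + h 1 false) + 2 / (h 2 true + h 2 false) := by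
  have key := core (y := y) (h := fun j e => max (h j e) 1)
    (x := fun j e k => if 1 ≤ h j e then x j e k else sg e) hy (fun j e => le_max_right _ _)
    (fun j e => by
      by_cases c : 1 ≤ h j e
      · simp only [if_pos c, hx, max_eq_left c]
      · simp only [if_neg c, max_eq_right (not_le.1 c).le]
        simpa using sg_sq e 1)
    (fun j e k d => by
      by_cases c : 1 ≤ h j e
      · simp only [if_pos c]
        exact (hb _ _ _ _).trans (le_max_left _ _)
      · simp only [if_neg c]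
        exact (sg_le _ _).trans (le_max_right _ _))
    (fun j b e d f => by
      by_cases c : 1 ≤ h j b
      · simp only [if_pos c]
        exact H j b e d f
      · simp only [if_neg c]
        have : ∀ i e', y i e d f * (sg e' * sg b - 1) ≤ 0 := fun i e' =>
          mul_nonpos_of_nonneg_of_nonpos (hy _ _ _ _).le (sub_nonpos.2 (sg_le _ _))
        linarith [this 0 e, this 1 d, this 2 f])
  have : ∀ j, 2 / (max (h j true) 1 + max (h j false) 1) ≤ 2 / (h j true + h j false) := fun j =>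
    div_le_div_of_nonneg_left zero_le_two (W0 j) (add_le_add (le_max_left _ _) (le_max_left _ _))
  linarith [this 0, this 1, this 2]

theorem core3 {y : Fin 3 → Bool → Bool → Bool → ℝ} {h : Fin 3 → Bool → ℝ}
    {x : Fin 3 → Bool → Fin 3 → ℝ} (hy : ∀ j e d f, 0 ≤ y j e d f)
    (hs : ∀ e d f, 0 < y 0 e d f + y 1 e d f + y 2 e d f)
    (W0 : ∀ j, 0 < h j true + h j false)
    (hx : ∀ j e, sg e * x j e j = h j e) (hb : ∀ j e k d, sg d * x j e k ≤ h k d)
    (H : ∀ j b e d f, y 0 e d f * (sg e * x j b 0 - 1) + y 1 e d f * (sg d * x j b 1 - 1) +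
      y 2 e d f * (sg f * x j b 2 - 1) ≤ 0) :
    1 ≤ 2 / (h 0 true + h 0 false) + 2 / (h 1 true + h 1 false) + 2 / (h 2 true + h 2 false) := by
  refine le_of_forall_lt_imp_le_of_dense fun ρ hρ => ?_
  rcases le_or_gt ρ 0 with r0 | r0
  · have := W0 0
    have := W0 1
    have := W0 2
    exact r0.trans (by positivity)
  let N : Bool → Bool → Bool → ℝ := fun e d f => |h 0 e| + |h 1 d| + |h 2 f| + 1
  have N0 : ∀ e d f, 0 < N e d f := fun e d f => by positivity
  let η : Bool → Bool → Bool → ℝ := fun e d f =>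
    (1 - ρ) * (y 0 e d f + y 1 e d f + y 2 e d f) / N e d f
  have η0 : ∀ e d f, 0 < η e d f := fun e d f =>
    div_pos (mul_pos (sub_pos.2 hρ) (hs e d f)) (N0 e d f)
  have key := core2 (y := fun j e d f => y j e d f + η e d f) (h := fun j e => ρ * h j e)
    (x := fun j e k => ρ * x j e k)
    (fun j e d f => add_pos_of_nonneg_of_pos (hy _ _ _ _) (η0 _ _ _))
    (fun j => by rw [← mul_add]; exact mul_pos r0 (W0 j))
    (fun j e => by rw [← hx]; ring)
    (fun j e k d => by
      rw [mul_left_comm]; exact mul_le_mul_of_nonneg_left (hb _ _ _ _) r0.le)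
    (fun j b e d f => by
      have h0 := mul_le_mul_of_nonneg_left (H j b e d f) r0.le
      have h1 : η e d f * N e d f = (1 - ρ) * (y 0 e d f + y 1 e d f + y 2 e d f) :=
        div_mul_cancel₀ _ (N0 e d f).ne'
      have h2 : ∀ k c, ρ * (sg c * x j b k) ≤ |h k c| := fun k c =>
        (mul_le_mul_of_nonneg_left ((hb _ _ _ _).trans (le_abs_self _)) r0.le).trans
          (mul_le_of_le_one_left (abs_nonneg _) hρ.le)
      have h3 : ρ * (sg e * x j b 0) + ρ * (sg d * x j b 1) + ρ * (sg f * x j b 2) - 3 ≤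
          N e d f := by
        simp only [N]
        linarith [h2 0 e, h2 1 d, h2 2 f]
      have h4 := mul_le_mul_of_nonneg_left h3 (η0 e d f).le
      linarith)
  have e : ∀ j, ρ * (2 / (ρ * h j true + ρ * h j false)) = 2 / (h j true + h j false) := by
    intro j
    have := W0 j
    rw [← mul_add]
    field_simp
  have := mul_le_mul_of_nonneg_left key r0.le
  linarith [e 0, e 1, e 2]

theorem sep {K : Set (Fin 3 → ℝ)} (hK : Convex ℝ K) (hne : K.Nonempty) (σ : Fin 3 → Bool)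
    (H : ∀ z ∈ K, ∃ j, sg (σ j) * z j ≤ 1) :
    ∃ y : Fin 3 → ℝ, (∀ j, 0 ≤ y j) ∧ 0 < y 0 + y 1 + y 2 ∧ ∀ z ∈ K,
      y 0 * (sg (σ 0) * z 0 - 1) + y 1 * (sg (σ 1) * z 1 - 1) + y 2 * (sg (σ 2) * z 2 - 1) ≤ 0 := by
  let U : Set (Fin 3 → ℝ) := ⋂ j, {z | 1 < sg (σ j) * z j}
  have hU : Convex ℝ U := convex_iInter fun j =>
    convex_halfSpace_gt (f := fun z : Fin 3 → ℝ => sg (σ j) * z j)
      ⟨fun a b => by simp [mul_add], fun c a => by simp [mul_left_comm]⟩ 1
  have hO : IsOpen U := isOpen_iInter_of_finite fun j =>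
    isOpen_lt continuous_const (by fun_prop)
  obtain ⟨f, c, h1, h2⟩ := geometric_hahn_banach_open hU hO hK
    (Set.disjoint_left.2 fun z hz hz' => by
      obtain ⟨j, hj⟩ := H z hz'
      exact absurd (Set.mem_iInter.1 hz j) (not_lt.2 hj))
  let y : Fin 3 → ℝ := fun j => -(sg (σ j) * f (Pi.single j 1))
  have hf : ∀ z : Fin 3 → ℝ, f z = -∑ j, y j * (sg (σ j) * z j) := by
    intro z
    conv_lhs => rw [pi_eq_sum_univ' z]
    rw [map_sum, ← Finset.sum_neg_distrib]
    refine Finset.sum_congr rfl fun j _ => ?_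
    rw [map_smul, smul_eq_mul]
    have := sg_sq (σ j) (z j * f (Pi.single j 1))
    simp only [y]
    linarith
  have h3 : ∀ ζ : Fin 3 → ℝ, (∀ j, 1 < ζ j) → -c < ∑ j, y j * ζ j := by
    intro ζ hζ
    have := h1 (fun j => sg (σ j) * ζ j) (Set.mem_iInter.2 fun j => by
      show 1 < sg (σ j) * (sg (σ j) * ζ j)
      rw [sg_sq]
      exact hζ j)
    rw [hf] at this
    simp only [sg_sq] at this
    linarith
  have y0 : ∀ j, 0 ≤ y j := by
    intro j
    by_contra hj
    have hj := not_le.1 hj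
    obtain ⟨T, hT⟩ : ∃ T, T = |c| + |∑ i, y i * 2| := ⟨_, rfl⟩
    have T0 : 0 ≤ T / -y j := div_nonneg (by rw [hT]; positivity) (by linarith)
    have := h3 (fun i => 2 + if i = j then T / -y j else 0) fun i => by
      split_ifs <;> linarith
    simp only [mul_add, Finset.sum_add_distrib, mul_ite, mul_zero, Finset.sum_ite_eq',
      Finset.mem_univ, if_true] at this
    have e : y j * (T / -y j) = -T := by
      have := hj.ne
      field_simp
    linarith [le_abs_self c, le_abs_self (∑ i, y i * 2)]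
  have h4 : -c ≤ y 0 + y 1 + y 2 := by
    refine le_of_forall_pos_le_add fun ε hε => ?_
    have s0 : 0 < y 0 + y 1 + y 2 + 1 := by linarith [y0 0, y0 1, y0 2]
    have p : 0 < ε / (y 0 + y 1 + y 2 + 1) := div_pos hε s0
    have := h3 (fun _ => 1 + ε / (y 0 + y 1 + y 2 + 1)) fun _ => by linarith
    rw [Fin.sum_univ_three] at this
    have e := div_mul_cancel₀ ε s0.ne'
    nlinarith
  refine ⟨y, y0, ?_, fun z hz => ?_⟩
  · by_contra hs
    have z0 : ∀ j, y j = 0 := by
      intro j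
      fin_cases j <;> simp <;> linarith [y0 0, y0 1, y0 2, not_lt.1 hs]
    obtain ⟨z, hz⟩ := hne
    have a := h2 z hz
    have b := h3 (fun _ => 2) fun _ => by norm_num
    rw [hf] at a
    simp only [z0, zero_mul, Finset.sum_const_zero] at a b
    linarith
  · have a := h2 z hz
    rw [hf, Fin.sum_univ_three] at a
    linarith

/-- Three planks covering a convex body have total relative width at least one. -/
theorem result : ∀ (d : ℕ) (C : Set (EuclideanSpace ℝ (Fin d))),
    IsCompact C → Convex ℝ C → (interior C).Nonempty →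
    ∀ (u : Fin 3 → EuclideanSpace ℝ (Fin d)) (a b : Fin 3 → ℝ),
      (∀ i, u i ≠ 0) → (∀ i, a i < b i) →
      C ⊆ ⋃ i, {x | a i ≤ inner ℝ (u i) x ∧ inner ℝ (u i) x ≤ b i} →
      1 ≤ ∑ i, (b i - a i) /
        (sSup ((fun x => inner ℝ (u i) x) '' C) - sInf ((fun x => inner ℝ (u i) x) '' C)) := by
  intro d C hcpt hcvx hint u a b hu hab hcov
  obtain ⟨x0, hx0⟩ := hint
  obtain ⟨r, hr, hball⟩ := Metric.mem_nhds_iff.1 (mem_interior_iff_mem_nhds.1 hx0)
  have hx0C : x0 ∈ C := interior_subset hx0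
  have hcont : ∀ i, ContinuousOn (fun x => inner ℝ (u i) x) C := fun i => by fun_prop
  have bd := fun i => hcpt.image_of_continuousOn (hcont i)
  choose P hPC hP using fun i => hcpt.exists_sInf_image_eq ⟨x0, hx0C⟩ (hcont i)
  choose Q hQC hQ using fun i => hcpt.exists_sSup_image_eq ⟨x0, hx0C⟩ (hcont i)
  have lo : ∀ i, ∀ x ∈ C, inner ℝ (u i) (P i) ≤ inner ℝ (u i) x := fun i x hx =>
    (hP i).symm.le.trans (csInf_le (bd i).bddBelow (Set.mem_image_of_mem _ hx))
  have hi : ∀ i, ∀ x ∈ C, inner ℝ (u i) x ≤ inner ℝ (u i) (Q i) := fun i x hx =>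
    (le_csSup (bd i).bddAbove (Set.mem_image_of_mem _ hx)).trans (hQ i).le
  have hW0 : ∀ i, 0 < inner ℝ (u i) (Q i) - inner ℝ (u i) (P i) := by
    intro i
    have hn : 0 < ‖u i‖ := norm_pos_iff.2 (hu i)
    have h1 : x0 + (r / 2 / ‖u i‖) • u i ∈ C := by
      apply hball
      rw [Metric.mem_ball, dist_eq_norm, add_sub_cancel_left, norm_smul, Real.norm_eq_abs,
        abs_of_pos (by positivity), div_mul_cancel₀ _ hn.ne']
      linarith
    have h2 := hi i _ h1
    have h3 := lo i _ hx0C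
    rw [inner_add_right, inner_smul_right, real_inner_self_eq_norm_sq] at h2
    have h4 : 0 < r / 2 / ‖u i‖ * ‖u i‖ ^ 2 := by positivity
    linarith
  have w0 : ∀ i, 0 < b i - a i := fun i => sub_pos.2 (hab i)
  let φ : EuclideanSpace ℝ (Fin d) → Fin 3 → ℝ := fun x i =>
    (2 * inner ℝ (u i) x - (a i + b i)) / (b i - a i)
  have hK : Convex ℝ (φ '' C) := by
    rintro _ ⟨x, hx, rfl⟩ _ ⟨z, hz, rfl⟩ s t hs ht hst
    refine ⟨s • x + t • z, hcvx hx hz hs ht hst, funext fun i => ?_⟩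
    have := w0 i
    simp only [φ, inner_add_right, inner_smul_right, Pi.add_apply, Pi.smul_apply, smul_eq_mul]
    obtain rfl : t = 1 - s := by linarith
    field_simp
    ring
  have hS : ∀ σ : Fin 3 → Bool, ∀ z ∈ φ '' C, ∃ j, sg (σ j) * z j ≤ 1 := by
    rintro σ _ ⟨x, hx, rfl⟩
    obtain ⟨j, h1, h2⟩ := Set.mem_iUnion.1 (hcov hx)
    refine ⟨j, ?_⟩
    simp only [φ]
    rw [← mul_div_assoc, div_le_one (w0 j)]
    cases σ j <;> simp only [sg, if_true, Bool.false_eq_true, if_false] <;> linarith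
  choose y y0 ys hy using fun σ => sep hK ⟨_, x0, hx0C, rfl⟩ σ (hS σ)
  let X : Fin 3 → Bool → EuclideanSpace ℝ (Fin d) := fun j e => if e then Q j else P j
  have XC : ∀ j e, X j e ∈ C := fun j e => by
    cases e
    exacts [hPC j, hQC j]
  have e : ∀ j, sg true * φ (X j true) j + sg false * φ (X j false) j =
      2 * (inner ℝ (u j) (Q j) - inner ℝ (u j) (P j)) / (b j - a j) := by
    intro j
    simp only [φ, X, sg, if_true, Bool.false_eq_true, if_false]
    ring
  have key := core3 (y := fun j e d f => y ![e, d, f] j) (h := fun j e => sg e * φ (X j e) j)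
    (x := fun j e => φ (X j e)) (fun j e d f => y0 _ _) (fun e d f => ys _)
    (fun j => by rw [e]; exact div_pos (mul_pos two_pos (hW0 j)) (w0 j)) (fun _ _ => rfl)
    (fun j e k d => by
      simp only [φ]
      rw [← mul_div_assoc, ← mul_div_assoc]
      refine div_le_div_of_nonneg_right ?_ (w0 k).le
      have h1 := lo k _ (XC j e)
      have h2 := hi k _ (XC j e)
      cases d <;> simp only [X, sg, if_true, Bool.false_eq_true, if_false] at h1 h2 ⊢ <;>
        linarith)
    (fun j c e d f => hy ![e, d, f] _ ⟨_, XC j c, rfl⟩)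
  have e' : ∀ j, 2 / (2 * (inner ℝ (u j) (Q j) - inner ℝ (u j) (P j)) / (b j - a j)) =
      (b j - a j) / (inner ℝ (u j) (Q j) - inner ℝ (u j) (P j)) := by
    intro j
    have := hW0 j
    have := w0 j
    field_simp
  rw [e, e, e, e', e', e'] at key
  rw [Fin.sum_univ_three, hP, hP, hP, hQ, hQ, hQ]
  exact key

end Pool.Agent.Lib.MP_79af62_gt.Old.ThreePlanks
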